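import Pool.Agent.Lib_helper99.TT.Refl

/-! Reflections with different ratios separate the modules. -/

set_option autoImplicit false
set_option linter.unusedSectionVars false
set_option linter.unusedSimpArgs false

namespace Pool.Agent.TT

open Module Pool.Agent.OT Pool.Agent.OU Pool.Agent.U4

section lin

variable {K : Type*} [Field K] [CharZero K] {V : Type*} [AddCommGroup V] [Module K V]
  [FiniteDimensional K V]

/-- The ratio of a reflection is well defined in dimension at least 3. -/
theorem refl_unique (s t : V ≃ₗ[K] V) (a c d c' d' : K) (hst : ∀ v, t v = a • s v)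
    (h3 : 3 ≤ finrank K V)
    (hr : finrank K (LinearMap.range ((s : Module.End K V) - c • (1 : Module.End K V))) = 1)
    (hd : ∃ v : V, v ≠ 0 ∧ s v = d • v) (hcd : c ≠ d)
    (hr' : finrank K (LinearMap.range ((t : Module.End K V) - c' • (1 : Module.End K V))) = 1)
    (hd' : ∃ v : V, v ≠ 0 ∧ t v = d' • v) (hcd' : c' ≠ d') : d * c' = d' * c := by
  obtain ⟨φ, u, φu, hs⟩ := refl_form s c d hr hd hcd
  obtain ⟨ψ, w, ψw, ht⟩ := refl_form t c' d' hr' hd' hcd'
  -- a common vector in the kernels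
  have hex : ∃ v : V, v ≠ 0 ∧ φ v = 0 ∧ ψ v = 0 := by
    let Φ : V →ₗ[K] (Fin 2 → K) := LinearMap.pi ![φ, ψ]
    have h1 : 0 < finrank K (LinearMap.ker Φ) := by
      have h2 := LinearMap.finrank_range_add_finrank_ker Φ
      have h4 : finrank K (LinearMap.range Φ) ≤ 2 := by
        have := Submodule.finrank_le (LinearMap.range Φ)
        rwa [Module.finrank_fin_fun] at this
      omega
    have h5 : LinearMap.ker Φ ≠ ⊥ := by
      intro h
      rw [h, finrank_bot] at h1
      exact lt_irrefl _ h1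
    obtain ⟨v, hv, v0⟩ := (Submodule.ne_bot_iff _).mp h5
    rw [LinearMap.mem_ker] at hv
    refine ⟨v, v0, ?_, ?_⟩
    · exact congrFun hv 0
    · exact congrFun hv 1
  obtain ⟨v, v0, hv1, hv2⟩ := hex
  have e1 : c' = a * c := by
    have h1 := hst v
    rw [hs, ht, hv1, hv2, mul_zero, mul_zero, zero_smul, zero_smul, add_zero, add_zero, smul_smul] at h1
    exact smul_left_injective K v0 h1
  -- compare the rank one parts
  have e2 : ∀ x, ((d' - c') * ψ x) • w = (a * ((d - c) * φ x)) • u := by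
    intro x
    have h1 := hst x
    rw [hs, ht, e1, smul_add, smul_smul, smul_smul] at h1
    rw [e1]
    exact add_left_cancel h1
  have hdc : d' - c' ≠ 0 := sub_ne_zero.mpr (Ne.symm hcd')
  have e3 : d' - c' = a * (d - c) := by
    have h1 := e2 w
    rw [ψw, mul_one] at h1
    -- apply ψ to e2 at w and at u
    have h2 := congrArg φ (e2 u)
    rw [map_smul, map_smul, φu, smul_eq_mul, smul_eq_mul, mul_one, mul_one] at h2
    have h3 := congrArg ψ h1
    rw [map_smul, map_smul, ψw, smul_eq_mul, smul_eq_mul, mul_one] at h3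
    -- h3 : d' - c' = a (d - c) φ w * ψ u ; h2 : (d' - c') ψ u * φ w = a (d - c)
    have h4 : (d' - c') * (φ w * ψ u) = a * (d - c) := by rw [← h2]; ring
    have h5 : d' - c' = a * (d - c) * (φ w * ψ u) := by rw [h3]; ring
    have h6 : a * (d - c) ≠ 0 := by
      intro h
      rw [h, zero_mul] at h5
      exact hdc h5
    have h7 : (φ w * ψ u) * (φ w * ψ u) = 1 := by
      apply mul_left_cancel₀ h6
      calc a * (d - c) * (φ w * ψ u * (φ w * ψ u)) = (a * (d - c) * (φ w * ψ u)) * (φ w * ψ u) := by ring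
        _ = a * (d - c) * 1 := by rw [← h5, h4, mul_one]
    -- w is a multiple of u, so φ w ψ u = 1
    have h8 : (d' - c') • w = (a * (d - c) * φ w) • u := by rw [h1]; congr 1; ring
    have h9 : (d' - c') * φ w = a * (d - c) * φ w := by
      have := congrArg φ h8
      rwa [map_smul, map_smul, φu, smul_eq_mul, smul_eq_mul, mul_one] at this
    have h10 : φ w ≠ 0 := by
      intro h
      rw [h, zero_mul, zero_mul] at h7
      exact zero_ne_one h7
    exact mul_right_cancel₀ h10 h9
  have e4 : d' = a * d := by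
    rw [e1] at e3
    linear_combination e3
  rw [e1, e4]; ring

/-- The contragredient automorphism. -/
noncomputable def cg (t : V ≃ₗ[K] V) : Module.Dual K V ≃ₗ[K] Module.Dual K V := t.symm.dualMap

theorem cg_apply (t : V ≃ₗ[K] V) (ψ : Module.Dual K V) (v : V) : cg t ψ (t v) = ψ v := by
  rw [cg, LinearEquiv.dualMap_apply, LinearEquiv.symm_apply_apply]

theorem cg_apply' (t : V ≃ₗ[K] V) (ψ : Module.Dual K V) (v : V) : cg t ψ v = ψ (t.symm v) := by
  rw [cg, LinearEquiv.dualMap_apply]

theorem cg_refl (t : V ≃ₗ[K] V) (c d : K) (h3 : 3 ≤ finrank K V)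
    (hr : finrank K (LinearMap.range ((t : Module.End K V) - c • (1 : Module.End K V))) = 1)
    (hd : ∃ v : V, v ≠ 0 ∧ t v = d • v) (hcd : c ≠ d) : c ≠ 0 ∧ d ≠ 0 ∧
    finrank K (LinearMap.range ((cg t : Module.End K (Module.Dual K V))
      - c⁻¹ • (1 : Module.End K (Module.Dual K V)))) = 1 ∧
    ∃ ψ : Module.Dual K V, ψ ≠ 0 ∧ cg t ψ = d⁻¹ • ψ := by
  obtain ⟨φ, u, φu, hs⟩ := refl_form t c d hr hd hcd
  have u0 : u ≠ 0 := by
    rintro rfl
    rw [map_zero] at φu
    exact zero_ne_one φu
  have tu : t u = d • u := by rw [hs, φu, mul_one, ← add_smul]; congr 1; ring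
  have d0 : d ≠ 0 := by
    rintro rfl
    rw [zero_smul] at tu
    apply u0
    apply t.injective
    rw [tu, map_zero]
  obtain ⟨w, w0, hw⟩ : ∃ w : V, w ≠ 0 ∧ φ w = 0 := by
    have h1 := LinearMap.finrank_range_add_finrank_ker φ
    have h2 : finrank K (LinearMap.range φ) ≤ 1 := by
      have := Submodule.finrank_le (LinearMap.range φ)
      rwa [Module.finrank_self] at this
    have h5 : LinearMap.ker φ ≠ ⊥ := by
      intro h
      rw [h, finrank_bot] at h1
      omega
    obtain ⟨v, hv, v0⟩ := (Submodule.ne_bot_iff _).mp h5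
    exact ⟨v, v0, LinearMap.mem_ker.mp hv⟩
  have c0 : c ≠ 0 := by
    rintro rfl
    apply w0
    apply t.injective
    rw [map_zero, hs, hw, zero_smul, mul_zero, zero_smul, add_zero]
  -- the inverse
  have hinv : ∀ v, t.symm v = c⁻¹ • v + ((d⁻¹ - c⁻¹) * φ v) • u := by
    intro v
    apply t.injective
    rw [LinearEquiv.apply_symm_apply, map_add, map_smul, map_smul, tu, hs, smul_add, smul_smul,
      smul_smul, inv_mul_cancel₀ c0, one_smul, smul_smul, add_assoc, ← add_smul]
    have : c⁻¹ * ((d - c) * φ v) + (d⁻¹ - c⁻¹) * φ v * d = 0 := by field_simp; ring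
    rw [this, zero_smul, add_zero]
  have hcg : ∀ ψ : Module.Dual K V, cg t ψ = c⁻¹ • ψ + ((d⁻¹ - c⁻¹) * ψ u) • φ := by
    intro ψ
    ext v
    rw [cg_apply', hinv, map_add, map_smul, map_smul, LinearMap.add_apply, LinearMap.smul_apply,
      LinearMap.smul_apply]
    simp only [smul_eq_mul]
    ring
  have φ0 : φ ≠ 0 := by
    rintro rfl
    rw [LinearMap.zero_apply] at φu
    exact zero_ne_one φu
  have hne : d⁻¹ - c⁻¹ ≠ 0 := by
    rw [sub_ne_zero]
    intro h
    exact hcd (inv_injective h).symm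
  refine ⟨c0, d0, ?_, φ, φ0, ?_⟩
  · have hv : ∀ ψ : Module.Dual K V, ((cg t : Module.End K (Module.Dual K V))
        - c⁻¹ • (1 : Module.End K (Module.Dual K V))) ψ = ((d⁻¹ - c⁻¹) * ψ u) • φ := by
      intro ψ
      rw [LinearMap.sub_apply, LinearMap.smul_apply, Module.End.one_apply]
      show cg t ψ - c⁻¹ • ψ = _
      rw [hcg]; abel
    refine finrank_eq_one (⟨((d⁻¹ - c⁻¹) * φ u) • φ, ⟨φ, hv φ⟩⟩ : LinearMap.range
      ((cg t : Module.End K (Module.Dual K V)) - c⁻¹ • (1 : Module.End K (Module.Dual K V)))) ?_ ?_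
    · intro h
      have h1 := congrArg Subtype.val h
      change ((d⁻¹ - c⁻¹) * φ u) • φ = 0 at h1
      rw [φu, mul_one] at h1
      exact (smul_ne_zero hne φ0) h1
    · rintro ⟨_, ⟨ψ, rfl⟩⟩
      refine ⟨ψ u, Subtype.ext ?_⟩
      show ψ u • ((d⁻¹ - c⁻¹) * φ u) • φ = ((cg t : Module.End K (Module.Dual K V))
        - c⁻¹ • (1 : Module.End K (Module.Dual K V))) ψ
      rw [hv, φu, smul_smul]; congr 1; ring
  · rw [hcg, φu, mul_one, ← add_smul]; congr 1; ring

end lin

variable {K : Type*} [Field K] [CharZero K] [IsAlgClosed K]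
  {g : Type*} [LieRing g] [LieAlgebra K g]

/-- Schur up to scalars. -/
theorem schur (U : Type*) [AddCommGroup U] [Module K U] [FiniteDimensional K U]
    [LieRingModule g U] [LieModule K g U] [LieModule.IsIrreducible K g U] (N : U ≃ₗ[K] U)
    (b : g → K) (h : ∀ (x : g) (v : U), N ⁅x, v⁆ = ⁅x, N v⁆ + b x • N v) :
    ∃ a : K, ∀ v, N v = a • v := by
  have hnt : Nontrivial U := LieModule.nontrivial_of_isIrreducible K g U
  have hn : (finrank K U : K) ≠ 0 := Nat.cast_ne_zero.mpr Module.finrank_pos.ne'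
  have hb : ∀ x, b x = 0 := by
    intro x
    have h1 : (N : Module.End K U) * LieModule.toEnd K g U x * (N.symm : Module.End K U)
        = LieModule.toEnd K g U x + b x • (1 : Module.End K U) := by
      ext v
      show N ⁅x, N.symm v⁆ = ⁅x, v⁆ + b x • v
      rw [h, LinearEquiv.apply_symm_apply]
    have h2 := congrArg (LinearMap.trace K U) h1
    have h3 : (N.symm : Module.End K U) * ((N : Module.End K U) * LieModule.toEnd K g U x)
        = LieModule.toEnd K g U x := by
      ext v
      show N.symm (N ⁅x, v⁆) = ⁅x, v⁆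
      rw [LinearEquiv.symm_apply_apply]
    rw [LinearMap.trace_mul_comm, h3, map_add, map_smul, LinearMap.trace_one, smul_eq_mul] at h2
    have h4 : b x * (finrank K U : K) = 0 := by
      have := h2
      exact (add_eq_left.mp this.symm)
    exact (mul_eq_zero.mp h4).resolve_right hn
  obtain ⟨a, ha⟩ := Module.End.exists_eigenvalue (N : Module.End K U)
  let E : LieSubmodule K g U :=
    { Module.End.eigenspace (N : Module.End K U) a with
      lie_mem := by
        intro x v hv
        have hv' : N v = a • v := Module.End.mem_eigenspace_iff.mp hv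
        refine Module.End.mem_eigenspace_iff.mpr ?_
        show N ⁅x, v⁆ = a • ⁅x, v⁆
        rw [h, hb, zero_smul, add_zero, hv', lie_smul] }
  have hE : ∀ v, v ∈ E ↔ N v = a • v := fun v => Module.End.mem_eigenspace_iff
  obtain ⟨v, hv⟩ := ha.exists_hasEigenvector
  have hEne : E ≠ ⊥ := by
    intro hbot
    have h1 : v ∈ E := (hE v).mpr (Module.End.mem_eigenspace_iff.mp hv.1)
    rw [hbot, LieSubmodule.mem_bot] at h1
    exact hv.2 h1
  have hEt : E = ⊤ := (eq_bot_or_eq_top E).resolve_left hEne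
  refine ⟨a, fun w => (hE w).mp ?_⟩
  rw [hEt]; exact LieSubmodule.mem_top w

/-- Two modules with simultaneous reflections of different ratios are not isomorphic up to a
character. -/
theorem no_twist (U V : Type*) [AddCommGroup U] [Module K U] [FiniteDimensional K U]
    [LieRingModule g U] [LieModule K g U] [LieModule.IsIrreducible K g U]
    [AddCommGroup V] [Module K V] [FiniteDimensional K V]
    [LieRingModule g V] [LieModule K g V]
    (s : U ≃ₗ[K] U) (t : V ≃ₗ[K] V)
    (hn : ∀ x : g, ∃ y : g, (∀ u : U, s ⁅x, u⁆ = ⁅y, s u⁆) ∧ ∀ v : V, t ⁅x, v⁆ = ⁅y, t v⁆)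
    (c d c' d' : K)
    (hr : finrank K (LinearMap.range ((s : Module.End K U) - c • (1 : Module.End K U))) = 1)
    (hd : ∃ v : U, v ≠ 0 ∧ s v = d • v) (hcd : c ≠ d)
    (hr' : finrank K (LinearMap.range ((t : Module.End K V) - c' • (1 : Module.End K V))) = 1)
    (hd' : ∃ v : V, v ≠ 0 ∧ t v = d' • v) (hcd' : c' ≠ d')
    (h3 : 3 ≤ finrank K U) (hne : d * c' ≠ d' * c) :
    ¬ ∃ f : U ≃ₗ[K] V, ∀ x : g, ∃ a : K, ∀ v : U, f ⁅x, v⁆ = ⁅x, f v⁆ + a • f v := by
  rintro ⟨f, hf⟩
  choose a ha using hf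
  choose y hy1 hy2 using hn
  -- N = f⁻¹ t⁻¹ f s
  let N : U ≃ₗ[K] U := ((s.trans f).trans t.symm).trans f.symm
  have hN : ∀ v, t (f (N v)) = f (s v) := by
    intro v
    show t (f (f.symm (t.symm (f (s v))))) = _
    rw [LinearEquiv.apply_symm_apply, LinearEquiv.apply_symm_apply]
  obtain ⟨b, hb⟩ := schur (g := g) U N (fun x => a (y x) - a x) (by
    intro x v
    apply f.injective
    apply t.injective
    rw [hN, hy1, ha, map_add, map_add, map_smul, map_smul, hN, ha x (N v), map_add, map_smul, hy2, hN]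
    module)
  -- t f = b' f s
  have b0 : b ≠ 0 := by
    rintro rfl
    obtain ⟨v, v0, -⟩ := hd
    have h1 := hb v
    rw [zero_smul] at h1
    exact v0 (N.injective (by rw [h1, map_zero]))
  let t' : U ≃ₗ[K] U := (f.trans t).trans f.symm
  have ht' : ∀ v, t' v = b⁻¹ • s v := by
    intro v
    apply f.injective
    show f (f.symm (t (f v))) = _
    rw [LinearEquiv.apply_symm_apply, map_smul]
    have h1 := hN v
    rw [hb, map_smul, map_smul] at h1
    rw [← h1, smul_smul, inv_mul_cancel₀ b0, one_smul]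
  have hft : ∀ v, f (t' v) = t (f v) := by
    intro v
    show f (f.symm (t (f v))) = _
    rw [LinearEquiv.apply_symm_apply]
  refine hne (refl_unique s t' b⁻¹ c d c' d' ht' h3 hr hd hcd ?_ ?_ hcd')
  · have h1 : (t' : Module.End K U) - c' • (1 : Module.End K U)
        = (f.symm : V →ₗ[K] U) ∘ₗ ((t : Module.End K V) - c' • (1 : Module.End K V)) ∘ₗ (f : U →ₗ[K] V) := by
      ext v
      apply f.injective
      show f (t' v - c' • v) = f (f.symm (t (f v) - c' • f v))
      rw [LinearEquiv.apply_symm_apply, map_sub, map_smul, hft]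
    rw [h1, LinearMap.range_comp, LinearMap.range_comp_of_range_eq_top _ f.range]
    rw [f.symm.finrank_map_eq]
    exact hr'
  · obtain ⟨v, v0, hv⟩ := hd'
    refine ⟨f.symm v, ?_, ?_⟩
    · intro h
      apply v0
      rw [← f.apply_symm_apply v, h, map_zero]
    · apply f.injective
      rw [hft, map_smul, LinearEquiv.apply_symm_apply, hv]

/-- The same for the dual of the second module. -/
theorem no_twist_dual (U V : Type*) [AddCommGroup U] [Module K U] [FiniteDimensional K U]
    [LieRingModule g U] [LieModule K g U] [LieModule.IsIrreducible K g U]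
    [AddCommGroup V] [Module K V] [FiniteDimensional K V]
    [LieRingModule g V] [LieModule K g V]
    (s : U ≃ₗ[K] U) (t : V ≃ₗ[K] V)
    (hn : ∀ x : g, ∃ y : g, (∀ u : U, s ⁅x, u⁆ = ⁅y, s u⁆) ∧ ∀ v : V, t ⁅x, v⁆ = ⁅y, t v⁆)
    (c d c' d' : K)
    (hr : finrank K (LinearMap.range ((s : Module.End K U) - c • (1 : Module.End K U))) = 1)
    (hd : ∃ v : U, v ≠ 0 ∧ s v = d • v) (hcd : c ≠ d)
    (hr' : finrank K (LinearMap.range ((t : Module.End K V) - c' • (1 : Module.End K V))) = 1)
    (hd' : ∃ v : V, v ≠ 0 ∧ t v = d' • v) (hcd' : c' ≠ d')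
    (h3 : 3 ≤ finrank K U) (hne : d * d' ≠ c * c') :
    ¬ ∃ f : U ≃ₗ[K] Module.Dual K V, ∀ x : g, ∃ a : K, ∀ v : U, f ⁅x, v⁆ = ⁅x, f v⁆ + a • f v := by
  intro hex
  have h3V : 3 ≤ finrank K V := by
    obtain ⟨f, -⟩ := hex
    have := f.finrank_eq
    rw [Subspace.dual_finrank_eq] at this
    omega
  obtain ⟨c0, d0, h1, h2⟩ := cg_refl t c' d' h3V hr' hd' hcd'
  refine no_twist U (Module.Dual K V) s (cg t) ?_ c d c'⁻¹ d'⁻¹ hr hd hcd h1 h2 ?_ h3 ?_ hex
  · intro x
    obtain ⟨y, hy1, hy2⟩ := hn x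
    refine ⟨y, hy1, fun ψ => ?_⟩
    ext v
    obtain ⟨w, rfl⟩ := t.surjective v
    rw [cg_apply, Module.Dual.lie_apply, Module.Dual.lie_apply, ← hy2, cg_apply]
  · intro h
    exact hcd' (inv_injective h)
  · intro h
    apply hne
    field_simp at h
    linear_combination h

end Pool.Agent.TT
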