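import Pool.Agent.Lib_helper48.OU.U18
import Pool.Agent.Lib_helper24.GS.G5
import Pool.Agent.Lib_helper9.U4.One

/-! A pseudo-reflection of order at least 3 (up to scalars) normalising an irreducible Lie algebra
forces the image to contain sl. -/

set_option autoImplicit false
set_option linter.unusedSectionVars false
set_option linter.unusedSimpArgs false

namespace Pool.Agent.TT

open Module Pool.Agent.OT Pool.Agent.OU Pool.Agent.U4

section one

variable {K : Type*} [Field K] {V : Type*} [AddCommGroup V] [Module K V] [FiniteDimensional K V]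

/-- A linear automorphism s with rank (s - c) = 1 and an eigenvalue d different from c is
c (1 - P) + d P for a projection P of rank one. -/
theorem refl_form (s : V ≃ₗ[K] V) (c d : K)
    (hr : finrank K (LinearMap.range ((s : Module.End K V) - c • (1 : Module.End K V))) = 1)
    (hd : ∃ v : V, v ≠ 0 ∧ s v = d • v) (hcd : c ≠ d) :
    ∃ (φ : Module.Dual K V) (u : V), φ u = 1 ∧
      (∀ v, s v = c • v + ((d - c) * φ v) • u) := by
  obtain ⟨⟨f, hf⟩, hf0, hfs⟩ := finrank_eq_one_iff'.mp hr
  have f0 : f ≠ 0 := fun h => hf0 (Subtype.ext h)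
  have hq : ∀ v, ∃ a : K, s v - c • v = a • f := by
    intro v
    obtain ⟨a, ha⟩ := hfs ⟨((s : Module.End K V) - c • (1 : Module.End K V)) v, ⟨v, rfl⟩⟩
    exact ⟨a, (congrArg Subtype.val ha).symm⟩
  choose a ha using hq
  have inj : ∀ x y : K, x • f = y • f → x = y := fun x y h => smul_left_injective K f0 h
  let φ : Module.Dual K V :=
    { toFun := a
      map_add' := by
        intro x y; apply inj; rw [← ha, map_add, add_smul, ← ha, ← ha, smul_add]; abel
      map_smul' := by
        intro b x; apply inj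
        rw [← ha, map_smul, smul_comm c b x, ← smul_sub, ha, smul_smul]; rfl }
  have hφ : ∀ v, s v - c • v = φ v • f := ha
  obtain ⟨v, v0, hv⟩ := hd
  have h1 : (d - c) • v = φ v • f := by rw [← hφ, hv, sub_smul]
  have hdc : d - c ≠ 0 := sub_ne_zero.mpr (Ne.symm hcd)
  have φv : φ v ≠ 0 := by
    intro h
    rw [h, zero_smul] at h1
    exact (smul_ne_zero hdc v0) h1
  have φf : φ f = d - c := by
    have h2 : φ ((d - c) • v) = φ (φ v • f) := by rw [h1]
    rw [map_smul, map_smul, smul_eq_mul, smul_eq_mul, mul_comm] at h2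
    exact (mul_left_cancel₀ φv h2).symm
  refine ⟨(d - c)⁻¹ • φ, f, ?_, ?_⟩
  · rw [LinearMap.smul_apply, φf, smul_eq_mul, inv_mul_cancel₀ hdc]
  · intro w
    rw [LinearMap.smul_apply, smul_eq_mul, ← mul_assoc, mul_inv_cancel₀ hdc, one_mul, ← hφ]
    abel

end one

attribute [local instance 100] LieRing.ofAssociativeRing

variable {K : Type*} [Field K] [CharZero K] [IsAlgClosed K]

theorem onSl_reflection {g : Type*} [LieRing g] [LieAlgebra K g]
    (U : Type*) [AddCommGroup U] [Module K U] [FiniteDimensional K U] [LieRingModule g U]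
    [LieModule K g U] [LieModule.IsIrreducible K g U] (s : U ≃ₗ[K] U)
    (hn : ∀ x : g, ∃ y : g, ∀ v : U, s ⁅x, v⁆ = ⁅y, s v⁆) (c d : K)
    (hr : finrank K (LinearMap.range ((s : Module.End K U) - c • (1 : Module.End K U))) = 1)
    (hd : ∃ v : U, v ≠ 0 ∧ s v = d • v) (hcd : c ^ 2 ≠ d ^ 2) :
    ∀ z : Module.End K U, LinearMap.trace K U z = 0 →
      ∃ (y : g) (a : K), ∀ v : U, ⁅y, v⁆ = z v + a • v := by
  have hcd' : c ≠ d := fun h => hcd (by rw [h])
  have hdc : d - c ≠ 0 := sub_ne_zero.mpr (Ne.symm hcd')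
  obtain ⟨φ, u, φu, hs⟩ := refl_form s c d hr hd hcd'
  have hnt : Nontrivial U := LieModule.nontrivial_of_isIrreducible K g U
  -- the projections
  obtain ⟨P, hP⟩ : ∃ P, P = ro φ u := ⟨_, rfl⟩
  obtain ⟨Q, hQ⟩ : ∃ Q : Module.End K U, Q = 1 - P := ⟨_, rfl⟩
  have Pv : ∀ v, P v = φ v • u := fun v => by rw [hP, ro_apply]
  have hPP : P * P = P := by
    ext v; rw [Module.End.mul_apply, Pv, Pv, map_smul, φu, smul_eq_mul, mul_one]
  have hPQ : P * Q = 0 := by rw [hQ, mul_sub, mul_one, hPP, sub_self]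
  have hQP : Q * P = 0 := by rw [hQ, sub_mul, one_mul, hPP, sub_self]
  have hQQ : Q * Q = Q := by
    rw [show Q * Q = (1 - P) * Q by rw [← hQ], sub_mul, one_mul, hPQ, sub_zero]
  have hPQ1 : P + Q = 1 := by rw [hQ]; abel
  obtain ⟨A, hA⟩ : ∃ A : Module.End K U, A = (s : Module.End K U) := ⟨_, rfl⟩
  have hAf : A = c • Q + d • P := by
    ext v
    rw [hA, LinearMap.add_apply, LinearMap.smul_apply, LinearMap.smul_apply, hQ, LinearMap.sub_apply,
      Module.End.one_apply, Pv]
    show s v = _
    rw [hs]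
    module
  have d0 : d ≠ 0 := by
    intro h
    have h1 : s u = 0 := by
      rw [hs, φu, h, mul_one, ← add_smul, zero_sub, add_neg_cancel, zero_smul]
    have h2 : u = 0 := by
      apply s.injective
      rw [h1, map_zero]
    rw [h2, map_zero] at φu
    exact zero_ne_one φu
  -- one dimensional case
  by_cases hker : LinearMap.ker φ = ⊥
  · intro z hz
    refine ⟨0, 0, fun v => ?_⟩
    have hv : ∀ v, v = φ v • u := by
      intro v
      have : v - φ v • u ∈ LinearMap.ker φ := by
        rw [LinearMap.mem_ker, map_sub, map_smul, φu, smul_eq_mul, mul_one, sub_self]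
      rw [hker, Submodule.mem_bot, sub_eq_zero] at this
      exact this
    have hz1 : z = ro φ (z u) := by
      ext w
      rw [ro_apply, ← map_smul, ← hv]
    have hz2 : φ (z u) = 0 := by
      rw [hz1, tr_ro] at hz
      exact hz
    have hz3 : z u = 0 := by rw [hv (z u), hz2, zero_smul]
    rw [zero_lie, zero_smul, add_zero, hz1, ro_apply, hz3, smul_zero]
  have c0 : c ≠ 0 := by
    intro h
    obtain ⟨w, hw, hw0⟩ := (Submodule.ne_bot_iff _).mp hker
    apply hw0
    apply s.injective
    rw [map_zero, hs, LinearMap.mem_ker.mp hw, h, zero_smul, mul_zero, zero_smul, add_zero]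
  -- the inverse
  obtain ⟨B, hB⟩ : ∃ B : Module.End K U, B = c⁻¹ • Q + d⁻¹ • P := ⟨_, rfl⟩
  have hAB : A * B = 1 := by
    rw [hAf, hB]
    simp only [add_mul, mul_add, smul_mul_assoc, mul_smul_comm, hQQ, hQP, hPQ, hPP, smul_zero,
      add_zero, zero_add, smul_smul]
    rw [inv_mul_cancel₀ c0, inv_mul_cancel₀ d0, one_smul, one_smul, add_comm, hPQ1]
  have hBA : B * A = 1 := by
    rw [hAf, hB]
    simp only [add_mul, mul_add, smul_mul_assoc, mul_smul_comm, hQQ, hQP, hPQ, hPP, smul_zero,
      add_zero, zero_add, smul_smul]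
    rw [mul_inv_cancel₀ c0, mul_inv_cancel₀ d0, one_smul, one_smul, add_comm, hPQ1]
  -- L
  obtain ⟨L, hL⟩ : ∃ L : Submodule K (Module.End K U), L = (TL K U g).toSubmodule := ⟨_, rfl⟩
  have memL : ∀ x, x ∈ L ↔ ∃ y : g, tl K U (LieModule.toEnd K g U y) = x := by
    intro x; rw [hL]; exact mem_TL
  have hbrk : ∀ x ∈ L, ∀ y ∈ L, x * y - y * x ∈ L := by
    intro x hx y hy
    rw [hL] at hx hy ⊢
    exact (TL K U g).lie_mem hx hy
  have hirr : ∀ W : Submodule K U, (∀ x ∈ L, ∀ v ∈ W, x v ∈ W) → W = ⊥ ∨ W = ⊤ := by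
    intro W hW
    refine TL_irr (g := g) W ?_
    intro x hx
    exact hW x (by rw [hL]; exact hx)
  have htr : ∀ x ∈ L, LinearMap.trace K U x = 0 := by
    intro x hx
    obtain ⟨y, rfl⟩ := (memL x).mp hx
    exact tl_tr _
  have good : Good L := by
    rw [hL]
    refine ⟨?_, ?_⟩
    · intro x hx y hy
      exact (TL K U g).lie_mem hx hy
    · refine nondeg (TL K U g) ?_ ?_
      · intro x hx
        exact htr x (by rw [hL]; exact hx)
      · exact fun W hW => TL_irr W hW
  -- conjugation preserves L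
  have conj : ∀ x ∈ L, A * x * B ∈ L := by
    intro x hx
    obtain ⟨y, rfl⟩ := (memL x).mp hx
    obtain ⟨y', hy'⟩ := hn y
    rw [memL]
    refine ⟨y', ?_⟩
    have e1 : A * LieModule.toEnd K g U y = LieModule.toEnd K g U y' * A := by
      ext v
      rw [hA]
      exact hy' v
    have e2 : LieModule.toEnd K g U y' = A * LieModule.toEnd K g U y * B := by
      rw [e1, mul_assoc, hAB, mul_one]
    have e3 : LinearMap.trace K U (A * LieModule.toEnd K g U y * B)
        = LinearMap.trace K U (LieModule.toEnd K g U y) := by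
      rw [LinearMap.trace_mul_comm, ← mul_assoc, hBA, one_mul]
    rw [tl_apply, tl_apply, e2, e3, mul_sub, sub_mul, mul_smul_comm, smul_mul_assoc, mul_one, hAB]
  -- components
  obtain ⟨m, hm⟩ : ∃ m, m = d * c⁻¹ := ⟨_, rfl⟩
  obtain ⟨m', hm'⟩ : ∃ m', m' = c * d⁻¹ := ⟨_, rfl⟩
  have hcomp : ∀ x : Module.End K U, A * x * B = x + (m - 1) • (P * x * Q) + (m' - 1) • (Q * x * P) := by
    intro x
    have e : x = P * x * P + P * x * Q + Q * x * P + Q * x * Q := by
      have : x = (P + Q) * x * (P + Q) := by rw [hPQ1, one_mul, mul_one]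
      nth_rewrite 1 [this]
      noncomm_ring
    have e2 : A * x * B = P * x * P + m • (P * x * Q) + m' • (Q * x * P) + Q * x * Q := by
      rw [hAf, hB, hm, hm']
      simp only [add_mul, mul_add, smul_mul_assoc, mul_smul_comm]
      match_scalars <;> field_simp
    rw [e2]
    nth_rewrite 5 [e]
    module
  have m1 : m ≠ 1 := by
    intro h
    apply hcd'
    rw [hm] at h
    have := congrArg (· * c) h
    simp only [mul_assoc, inv_mul_cancel₀ c0, mul_one, one_mul] at this
    exact this.symm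
  have mm' : m ≠ m' := by
    intro h
    apply hcd
    rw [hm, hm'] at h
    field_simp at h
    exact h.symm
  have hPQm : ∀ x ∈ L, P * x * Q ∈ L := by
    intro x hx
    obtain ⟨y, hy⟩ : ∃ y, y = (m - 1) • (P * x * Q) + (m' - 1) • (Q * x * P) := ⟨_, rfl⟩
    have hyL : y ∈ L := by
      have : y = A * x * B - x := by rw [hcomp, hy]; abel
      rw [this]; exact L.sub_mem (conj x hx) hx
    have hy1 : P * y * Q = (m - 1) • (P * x * Q) := by
      rw [hy]
      simp only [mul_add, add_mul, mul_smul_comm, smul_mul_assoc]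
      have a1 : P * (P * x * Q) * Q = P * x * Q := by
        rw [show P * (P * x * Q) * Q = (P * P) * x * (Q * Q) by simp only [mul_assoc], hPP, hQQ]
      have a2 : P * (Q * x * P) * Q = 0 := by
        rw [show P * (Q * x * P) * Q = (P * Q) * x * (P * Q) by simp only [mul_assoc], hPQ, zero_mul,
          zero_mul]
      rw [a1, a2, smul_zero, add_zero]
    have hy2 : Q * y * P = (m' - 1) • (Q * x * P) := by
      rw [hy]
      simp only [mul_add, add_mul, mul_smul_comm, smul_mul_assoc]
      have a1 : Q * (P * x * Q) * P = 0 := by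
        rw [show Q * (P * x * Q) * P = (Q * P) * x * (Q * P) by simp only [mul_assoc], hQP, zero_mul,
          zero_mul]
      have a2 : Q * (Q * x * P) * P = Q * x * P := by
        rw [show Q * (Q * x * P) * P = (Q * Q) * x * (P * P) by simp only [mul_assoc], hPP, hQQ]
      rw [a1, a2, smul_zero, zero_add]
    have h3 : A * y * B - m' • y ∈ L := L.sub_mem (conj y hyL) (L.smul_mem _ hyL)
    have h4 : A * y * B - m' • y = ((m - 1) * (m - m')) • (P * x * Q) := by
      rw [hcomp, hy1, hy2]
      nth_rewrite 1 [hy]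
      rw [hy]
      module
    rw [h4] at h3
    have h5 : (m - 1) * (m - m') ≠ 0 := mul_ne_zero (sub_ne_zero.mpr m1) (sub_ne_zero.mpr mm')
    have := L.smul_mem ((m - 1) * (m - m'))⁻¹ h3
    rwa [smul_smul, inv_mul_cancel₀ h5, one_smul] at this
  have hQPm : ∀ x ∈ L, Q * x * P ∈ L := by
    intro x hx
    have h1 : (m' - 1) • (Q * x * P) ∈ L := by
      have : (m' - 1) • (Q * x * P) = A * x * B - x - (m - 1) • (P * x * Q) := by rw [hcomp]; abel
      rw [this]
      exact L.sub_mem (L.sub_mem (conj x hx) hx) (L.smul_mem _ (hPQm x hx))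
    have h2 : m' - 1 ≠ 0 := by
      rw [sub_ne_zero]
      intro h
      apply hcd'
      rw [hm'] at h
      have := congrArg (· * d) h
      simp only [mul_assoc, inv_mul_cancel₀ d0, mul_one, one_mul] at this
      exact this
    have := L.smul_mem (m' - 1)⁻¹ h1
    rwa [smul_smul, inv_mul_cancel₀ h2, one_smul] at this
  -- a rank one element
  obtain ⟨x, hx, hx0⟩ : ∃ x ∈ L, P * x * Q ≠ 0 := by
    by_contra hcon
    push Not at hcon
    rcases hirr (LinearMap.ker φ) (by
      intro x hx v hv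
      have h1 := LinearMap.congr_fun (hcon x hx) v
      rw [LinearMap.mem_ker] at hv
      have h2 : Q v = v := by rw [hQ, LinearMap.sub_apply, Module.End.one_apply, Pv, hv, zero_smul, sub_zero]
      rw [Module.End.mul_apply, Module.End.mul_apply, h2, Pv, LinearMap.zero_apply] at h1
      rw [LinearMap.mem_ker]
      rcases smul_eq_zero.mp h1 with h | h
      · exact h
      · rw [h, map_zero] at φu
        exact absurd φu zero_ne_one) with h | h
    · exact hker h
    · have : u ∈ LinearMap.ker φ := by rw [h]; exact Submodule.mem_top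
      rw [LinearMap.mem_ker, φu] at this
      exact one_ne_zero this
  obtain ⟨E, hE⟩ : ∃ E, E = P * x * Q := ⟨_, rfl⟩
  have EL : E ∈ L := by rw [hE]; exact hPQm x hx
  have E0 : E ≠ 0 := by rw [hE]; exact hx0
  have PE : P * E = E := by rw [hE, ← mul_assoc, ← mul_assoc, hPP]
  have EQ : E * Q = E := by rw [hE, mul_assoc, hQQ]
  have QE : Q * E = 0 := by rw [hE, ← mul_assoc, ← mul_assoc, hQP, zero_mul, zero_mul]
  have EP : E * P = 0 := by rw [hE, mul_assoc, hQP, mul_zero]
  have EE : E * E = 0 := by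
    calc E * E = E * (P * E) := by rw [PE]
      _ = 0 := by rw [← mul_assoc, EP, zero_mul]
  obtain ⟨Y, hYL, -, hEYE, hYEY⟩ := good.pair EL EE
  obtain ⟨F, hF⟩ : ∃ F, F = Q * Y * P := ⟨_, rfl⟩
  have FL : F ∈ L := by rw [hF]; exact hQPm Y hYL
  have EFE : E * F * E = E := by
    rw [hF]
    calc E * (Q * Y * P) * E = (E * Q) * Y * (P * E) := by simp only [mul_assoc]
      _ = E := by rw [EQ, PE, hEYE]
  have QF : Q * F = F := by rw [hF, ← mul_assoc, ← mul_assoc, hQQ]
  have FP : F * P = F := by rw [hF, mul_assoc, hPP]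
  have PF : P * F = 0 := by rw [hF, ← mul_assoc, ← mul_assoc, hPQ, zero_mul, zero_mul]
  have FQ : F * Q = 0 := by rw [hF, mul_assoc, hPQ, mul_zero]
  have FF : F * F = 0 := by
    calc F * F = (F * P) * F := by rw [FP]
      _ = 0 := by rw [mul_assoc, PF, mul_zero]
  have FEF : F * E * F = F := by
    rw [hF]
    calc Q * Y * P * E * (Q * Y * P) = Q * (Y * (P * E) * (Y)) * P
          := by
            rw [show Q * Y * P * E * (Q * Y * P) = Q * Y * (P * E) * Q * Y * P by simp only [mul_assoc],
              PE]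
            rw [show Q * Y * E * Q * Y * P = Q * Y * (E * Q) * Y * P by simp only [mul_assoc], EQ]
            simp only [mul_assoc]
      _ = Q * Y * P := by rw [PE, hYEY]
  -- E, F as rank one maps
  obtain ⟨ε, hε⟩ : ∃ ε : Module.Dual K U, ε = φ ∘ₗ E := ⟨_, rfl⟩
  obtain ⟨f, hf⟩ : ∃ f, f = F u := ⟨_, rfl⟩
  have Ev : ∀ v, E v = ε v • u := by
    intro v
    have := LinearMap.congr_fun PE v
    rw [Module.End.mul_apply, Pv] at this
    rw [hε, LinearMap.comp_apply]; exact this.symm
  have Fv : ∀ v, F v = φ v • f := by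
    intro v
    have := LinearMap.congr_fun FP v
    rw [Module.End.mul_apply, Pv, map_smul] at this
    rw [hf]; exact this.symm
  have u0 : u ≠ 0 := by
    rintro rfl
    rw [map_zero] at φu
    exact zero_ne_one φu
  have hEFP : E * F = P := by
    have h1 : ∀ v, (E * F) v = (φ v * ε f) • u := by
      intro v
      rw [Module.End.mul_apply, Fv, map_smul, Ev, smul_smul]
    have h2 : ε f ≠ 0 := by
      intro h
      apply E0
      rw [← EFE]
      have : E * F = 0 := by
        ext v; rw [h1, h, mul_zero, zero_smul, LinearMap.zero_apply]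
      rw [this, zero_mul]
    have h3 : (E * F) * (E * F) = E * F := by rw [← mul_assoc, EFE]
    have h4 := LinearMap.congr_fun h3 u
    rw [Module.End.mul_apply, h1 u, map_smul, h1 u, φu, one_mul, smul_smul] at h4
    have h5 : ε f * ε f = ε f := smul_left_injective K u0 h4
    have h6 : ε f = 1 := mul_left_cancel₀ h2 (by rw [h5, mul_one])
    ext v
    rw [h1, h6, mul_one, Pv]
  have εf : ε f = 1 := by
    have h1 := LinearMap.congr_fun hEFP u
    rw [Module.End.mul_apply, Fv, φu, one_smul, Ev, Pv, φu] at h1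
    exact smul_left_injective K u0 h1
  obtain ⟨q, hq⟩ : ∃ q, q = F * E := ⟨_, rfl⟩
  have qv : ∀ v, q v = ε v • f := by
    intro v
    rw [hq, Module.End.mul_apply, Ev, map_smul, Fv, φu, one_smul]
  have D : Tri L E F P q := by
    refine ⟨hbrk, EL, FL, hEFP, hq.symm, EE, FF, PE, ?_, ?_, FP, ?_, ?_⟩
    · rw [hq, ← mul_assoc, hEFP, PE]
    · rw [hq, FEF]
    · intro a _ h1 h2
      refine ⟨φ (a f), ?_⟩
      ext v
      have k1 := LinearMap.congr_fun h2 v
      rw [Module.End.mul_apply, qv, map_smul] at k1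
      have k2 := LinearMap.congr_fun h1 f
      rw [Module.End.mul_apply, Pv] at k2
      rw [← k1, ← k2, LinearMap.smul_apply, Ev, map_smul, φu, smul_eq_mul, mul_one, smul_comm]
    · intro a _ h1 h2
      refine ⟨ε (a u), ?_⟩
      ext v
      have k1 := LinearMap.congr_fun h2 v
      rw [Module.End.mul_apply, Pv, map_smul] at k1
      have k2 := LinearMap.congr_fun h1 u
      rw [Module.End.mul_apply, qv] at k2
      rw [← k1, ← k2, LinearMap.smul_apply, Fv, map_smul, εf, smul_eq_mul, mul_one, smul_comm]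
  have rkE : rk E = 1 := by
    rw [rk, finrank_eq_one_iff']
    refine ⟨⟨u, ⟨f, by rw [Ev, εf, one_smul]⟩⟩, ?_, ?_⟩
    · intro h; exact u0 (congrArg Subtype.val h)
    · rintro ⟨_, ⟨v, rfl⟩⟩
      exact ⟨ε v, Subtype.ext (Ev v).symm⟩
  -- simplicity
  have hsim : PSimple K g U := by
    obtain ⟨yE, hyE⟩ := (memL E).mp EL
    obtain ⟨yF, hyF⟩ := (memL F).mp FL
    have e1 : LieModule.toEnd K g U ⁅yE, yF⁆ = E * F - F * E := by
      rw [← hyE, ← hyF, tl_brk, LieHom.map_lie]; rfl
    have e2 : LieModule.toEnd K g U ⁅⁅yE, yF⁆, yE⁆ = (2 : K) • E := by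
      have h1 : LieModule.toEnd K g U ⁅⁅yE, yF⁆, yE⁆
          = LieModule.toEnd K g U ⁅yE, yF⁆ * LieModule.toEnd K g U yE
            - LieModule.toEnd K g U yE * LieModule.toEnd K g U ⁅yE, yF⁆ := by
        rw [LieHom.map_lie]; rfl
      have h2 : LieModule.toEnd K g U yE = E + (LinearMap.trace K U (LieModule.toEnd K g U yE)
          * (finrank K U : K)⁻¹) • (1 : Module.End K U) := by
        rw [← hyE, tl_apply]; abel
      rw [h1, h2, e1]
      simp only [mul_add, add_mul, sub_mul, mul_sub, mul_smul_comm, smul_mul_assoc, mul_one, one_mul]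
      rw [EFE, mul_assoc F E E, EE, mul_zero, ← mul_assoc E E F, EE, zero_mul, ← mul_assoc E F E, EFE]
      module
    have e3 : LieModule.toEnd K g U ((1 / 2 : K) • ⁅⁅yE, yF⁆, yE⁆) = E := by
      rw [map_smul, e2, smul_smul]; norm_num
    refine Pool.Agent.GS.psimple_of_coprime U ((1 / 2 : K) • ⁅⁅yE, yF⁆, yE⁆) ?_ ?_
    · intro v
      have h1 : ∀ w : U, ⁅(1 / 2 : K) • ⁅⁅yE, yF⁆, yE⁆, w⁆ = E w := fun w =>
        LinearMap.congr_fun e3 w
      rw [h1, h1]
      exact LinearMap.congr_fun EE v
    · rw [e3]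
      have : finrank K (LinearMap.range E) = 1 := rkE
      rw [this]
      exact Nat.coprime_one_left _
  have S : SimU L := by rw [hL]; exact TL_simU hsim
  intro z hz
  have hzL : z ∈ L := by
    refine full_of_split S D rkE ?_ z hz
    intro t ht
    have h1 : P * t = P * t * Q := by
      rw [hQ, mul_sub, mul_one, mul_assoc P t P, ht.xp, mul_zero, sub_zero]
    have h2 : P * t ∈ L := by rw [h1]; exact hPQm t ht.mem
    refine ⟨h2, ?_⟩
    have h3 : t * q = t - P * t := by rw [ht.px]; abel
    rw [h3]; exact L.sub_mem ht.mem h2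
  obtain ⟨y, hy⟩ := (memL z).mp hzL
  refine ⟨y, LinearMap.trace K U (LieModule.toEnd K g U y) * (finrank K U : K)⁻¹, fun v => ?_⟩
  rw [← hy, tl_apply, LinearMap.sub_apply, LinearMap.smul_apply, Module.End.one_apply]
  show ⁅y, v⁆ = ⁅y, v⁆ - _ + _
  abel

end Pool.Agent.TT
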